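import Pool.Agent.Helper92.LFU.Goals

/-!
# Form U (MP_c307ca_nt): the final assembly
-/

set_option autoImplicit false

open Finset Filter
open scoped Classical

namespace Pool.Agent.Helper20.LFU

open Pool.Agent.Helper98.Lang Pool.Agent.Helper73.LF Pool.Agent.Helper92.LFU

/-- the pairs counted for one `q` -/
noncomputable def PS {m : ℕ} (x : Fin m → ℝ) (e c : ℝ) (M d s q : ℕ) :
    Finset ((Fin m → ℕ) × ℕ) :=
  {y ∈ Fintype.piFinset (fun _ : Fin m => Icc 1 M) ×ˢ range d | ∃ p : ℤ,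
    |((s : ℝ) * ∑ i, (y.1 i : ℝ) * x i + y.2) / d - (p : ℝ) / q| ≤
      c / ((q : ℝ) ^ 2 * Real.log q ^ (1 + e))}

/-- the conclusion of LFU-QAB -/
def ONEQ : Prop := ∀ (m : ℕ) (x : Fin m → ℝ) (e c : ℝ) (M d s q : ℕ), 0 < e → 0 < c → 1 ≤ d →
  1 ≤ s → 2 ≤ q → (∀ h : ℕ, 1 ≤ h → ∀ i, 0 < nd (h * x i)) →
  ((({y ∈ Fintype.piFinset (fun _ : Fin m => Icc 1 M) ×ˢ range d | ∃ p : ℤ,
    |((s : ℝ) * ∑ i, (y.1 i : ℝ) * x i + y.2) / d - (p : ℝ) / q| ≤
      c / ((q : ℝ) ^ 2 * Real.log q ^ (1 + e))} : Finset ((Fin m → ℕ) × ℕ)).card : ℝ)) ≤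
    16 * c * ((M : ℝ) ^ m * d) / (q * Real.log q ^ (1 + e)) +
      24 * ((d : ℝ) * tq e c q * ∑ h ∈ Ico 1 ⌊1 / (2 * Pool.Agent.Helper87.MD.et c e d q)⌋₊,
        PM x M (s * (h * (q / Nat.gcd d q))))

lemma nd_pos_of {m : ℕ} {x : Fin m → ℝ} (hS : SchP x) :
    ∀ h : ℕ, 1 ≤ h → ∀ i, 0 < nd (h * x i) := by
  intro h hh i
  obtain ⟨c0, hc0, h1⟩ := hS 1 one_pos
  have h2 := h1 h hh
  have h3 : 0 < c0 * (h : ℝ) ^ (-(1 + 1 : ℝ)) := by
    have : (0 : ℝ) < h := by exact_mod_cast hh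
    positivity
  have h4 : 0 < ∏ i, nd (h * x i) := lt_of_lt_of_le h3 h2
  have h5 : 0 ≤ nd (h * x i) := abs_nonneg _
  rcases h5.lt_or_eq with h6 | h6
  · exact h6
  · exfalso
    have : ∏ i, nd (h * x i) = 0 := Finset.prod_eq_zero (Finset.mem_univ i) h6.symm
    rw [this] at h4
    exact lt_irrefl _ h4

lemma PM_nonneg {m : ℕ} (θ : Fin m → ℝ) (M h : ℕ) : 0 ≤ PM θ M h := by
  unfold PM
  refine Finset.prod_nonneg fun i _ => le_min (Nat.cast_nonneg _) ?_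
  have : 0 ≤ nd (h * θ i) := abs_nonneg _
  positivity

lemma tq_nonneg {e c : ℝ} (hc : 0 < c) (q : ℕ) : 0 ≤ tq e c q := by
  unfold tq
  have h1 : 0 ≤ Real.log (q : ℝ) := Real.log_natCast_nonneg q
  have h2 : 0 ≤ Real.log (q : ℝ) ^ (1 + e) := Real.rpow_nonneg h1 _
  positivity

theorem finu (hS : GSch) (h1 : ONEQ) (hB : GBlkU) (hL : GLog) : StmtG := by
  intro e he
  refine ⟨16 * (1 + 1 / e) + 1, ?_⟩
  intro m x hm halg hind c A α hc hAα
  have hSx := hS m x halg hind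
  have hnd := nd_pos_of hSx
  rcases lt_or_ge α 0 with hα | hα
  · refine ⟨2, ?_⟩
    intro M d s hN hs hsK
    exfalso
    have hK : (1 : ℝ) < (M : ℝ) ^ m * d := by
      have : (2 : ℝ) ≤ ((M ^ m * d : ℕ) : ℝ) := by exact_mod_cast hN
      push_cast at this
      linarith
    have h2 := Real.rpow_lt_one_of_one_lt_of_neg hK hα
    have h3 : (1 : ℝ) ≤ s := by exact_mod_cast hs
    linarith
  obtain ⟨κ, N1, hκ, hB1⟩ := hB m x hm hSx e c A α he hc hα hAα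
  have hlim : ∀ᶠ N : ℕ in atTop, 24 * Real.log (N : ℝ) ^ e ≤ c * (N : ℝ) ^ κ := by
    have h1 := (isLittleO_log_rpow_rpow_atTop e hκ).bound
      (show 0 < c / 24 by positivity)
    have h2 := tendsto_natCast_atTop_atTop.eventually (h1.and (eventually_ge_atTop (1 : ℝ)))
    filter_upwards [h2] with N hN
    obtain ⟨h3, h4⟩ := hN
    have h5 : 0 ≤ Real.log (N : ℝ) := Real.log_nonneg h4
    rw [Real.norm_of_nonneg (Real.rpow_nonneg h5 _),
      Real.norm_of_nonneg (Real.rpow_nonneg (by linarith) _)] at h3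
    linarith
  obtain ⟨N2, hN2⟩ := eventually_atTop.1 hlim
  refine ⟨max 2 (max N1 N2), ?_⟩
  intro M d s hN hs hsK Q hQ
  have hN2' : 2 ≤ M ^ m * d := le_trans (le_max_left _ _) hN
  have hNN1 : N1 ≤ M ^ m * d := le_trans (le_trans (le_max_left _ _) (le_max_right _ _)) hN
  have hNN2 : N2 ≤ M ^ m * d := le_trans (le_trans (le_max_right _ _) (le_max_right _ _)) hN
  have hcast : ((M : ℝ) ^ m * d) = ((M ^ m * d : ℕ) : ℝ) := by push_cast; ring
  have hd : 1 ≤ d := by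
    rcases Nat.eq_zero_or_pos d with h | h
    · subst h; simp at hN2'
    · exact h
  rw [hcast] at hsK ⊢
  have hb := hB1 M d s hNN1 hs hsK
  have h4 := hN2 _ hNN2
  set K : ℝ := ((M ^ m * d : ℕ) : ℝ) with hK
  have hK2 : (2 : ℝ) ≤ K := by rw [hK]; exact_mod_cast hN2'
  have hKpos : (0 : ℝ) < K := by linarith
  have hone : (1 : ℝ) ≤ K := by linarith
  have hlogK : 0 < Real.log K := Real.log_pos (by linarith)
  have hlogQ : 0 < Real.log Q := Real.log_pos (by linarith)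
  have hlQpos : 0 < Real.log Q ^ e := Real.rpow_pos_of_pos hlogQ _
  let I : Finset ℕ := (Icc 2 ⌊K ^ A⌋₊).filter (fun q : ℕ => Q ≤ q)
  set T : Set ((Fin m → ℕ) × ℕ) := {y : (Fin m → ℕ) × ℕ | (∀ i, 1 ≤ y.1 i ∧ y.1 i ≤ M) ∧
      y.2 < d ∧ ∃ (p : ℤ) (q : ℕ), Q ≤ q ∧ (q : ℝ) ≤ K ^ A ∧
        |((s : ℝ) * ∑ i, (y.1 i : ℝ) * x i + y.2) / d - (p : ℝ) / (q : ℝ)|
          ≤ c / ((q : ℝ) ^ 2 * Real.log (q : ℝ) ^ (1 + e))} with hT
  have hsub : T ⊆ ((I.biUnion (fun q => PS x e c M d s q) : Finset ((Fin m → ℕ) × ℕ)) :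
      Set ((Fin m → ℕ) × ℕ)) := by
    rintro ⟨a, b⟩ ⟨ha, hbd, p, q, hQq, hqA, hap⟩
    rw [Finset.mem_coe, Finset.mem_biUnion]
    have hq2 : (2 : ℝ) ≤ q := hQ.trans hQq
    refine ⟨q, Finset.mem_filter.2 ⟨Finset.mem_Icc.2 ⟨by exact_mod_cast hq2, Nat.le_floor hqA⟩,
      hQq⟩, ?_⟩
    exact Finset.mem_filter.2 ⟨Finset.mem_product.2 ⟨Fintype.mem_piFinset.2 fun i =>
      Finset.mem_Icc.2 (ha i), Finset.mem_range.2 hbd⟩, p, hap⟩
  have hcard : (T.ncard : ℝ) ≤ ∑ q ∈ I, ((PS x e c M d s q).card : ℝ) := by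
    have h1 := Set.ncard_le_ncard hsub (Finset.finite_toSet _)
    rw [Set.ncard_coe_finset] at h1
    have h2 := h1.trans Finset.card_biUnion_le
    exact_mod_cast h2
  have hpos : 0 ≤ (16 * (1 + 1 / e) + 1) * c * K / Real.log Q ^ e := by positivity
  rcases lt_or_ge (K ^ A) Q with hQB | hQB
  · have hempty : T = ∅ := by
      rw [hT]
      ext y
      simp only [Set.mem_ofPred_eq, Set.mem_empty_iff_false, iff_false]
      rintro ⟨-, -, p, q, hq2, hqA, -⟩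
      linarith
    rw [hempty, Set.ncard_empty]
    exact_mod_cast hpos
  have hQK : Q ≤ K := by
    refine hQB.trans ?_
    calc K ^ A ≤ K ^ (1 : ℝ) := Real.rpow_le_rpow_of_exponent_le hone (by linarith)
      _ = K := Real.rpow_one K
  have h6 : Real.log Q ^ e ≤ Real.log K ^ e :=
    Real.rpow_le_rpow hlogQ.le (Real.log_le_log (by linarith) hQK) he.le
  have hI2 : ∀ q ∈ I, 2 ≤ q := fun q hq => (Finset.mem_Icc.1 (Finset.mem_filter.1 hq).1).1
  have hfirst : ∑ q ∈ I, 1 / ((q : ℝ) * Real.log q ^ (1 + e)) ≤ (1 + 1 / e) / Real.log Q ^ e := by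
    have hQ0 : 0 ≤ Q := by linarith
    have hc2 : 2 ≤ ⌈Q⌉₊ := by
      have : (2 : ℝ) ≤ (⌈Q⌉₊ : ℝ) := hQ.trans (Nat.le_ceil Q)
      exact_mod_cast this
    have hsubI : I ⊆ Icc ⌈Q⌉₊ ⌊K ^ A⌋₊ := by
      intro q hq
      obtain ⟨hq1, hq2⟩ := Finset.mem_filter.1 hq
      exact Finset.mem_Icc.2 ⟨Nat.ceil_le.2 hq2, (Finset.mem_Icc.1 hq1).2⟩
    calc ∑ q ∈ I, 1 / ((q : ℝ) * Real.log q ^ (1 + e))
        ≤ ∑ q ∈ Icc ⌈Q⌉₊ ⌊K ^ A⌋₊, 1 / ((q : ℝ) * Real.log q ^ (1 + e)) := by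
          refine Finset.sum_le_sum_of_subset_of_nonneg hsubI fun q _ _ => ?_
          have h1 : 0 ≤ Real.log (q : ℝ) := Real.log_natCast_nonneg q
          have h2 : 0 ≤ Real.log (q : ℝ) ^ (1 + e) := Real.rpow_nonneg h1 _
          positivity
      _ ≤ (1 + 1 / e) / Real.log (⌈Q⌉₊ : ℕ) ^ e := hL e he _ _ hc2
      _ ≤ (1 + 1 / e) / Real.log Q ^ e := by
          refine div_le_div_of_nonneg_left (by positivity) hlQpos ?_
          exact Real.rpow_le_rpow hlogQ.le (Real.log_le_log (by linarith) (Nat.le_ceil Q)) he.le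
  have hsecond : ∑ q ∈ I, (d : ℝ) * tq e c q *
      ∑ h ∈ Ico 1 ⌊1 / (2 * Pool.Agent.Helper87.MD.et c e d q)⌋₊,
        PM x M (s * (h * (q / Nat.gcd d q))) ≤ K ^ (1 - κ) := by
    refine le_trans ?_ hb
    refine Finset.sum_le_sum_of_subset_of_nonneg (Finset.filter_subset _ _) fun q _ _ => ?_
    exact mul_nonneg (mul_nonneg (Nat.cast_nonneg _) (tq_nonneg hc q))
      (Finset.sum_nonneg fun h _ => PM_nonneg _ _ _)
  have hsmall : 24 * K ^ (1 - κ) ≤ c * K / Real.log Q ^ e := by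
    rw [le_div_iff₀ hlQpos]
    have h7 : K ^ κ * K ^ (1 - κ) = K := by
      rw [← Real.rpow_add hKpos]
      have : κ + (1 - κ) = 1 := by ring
      rw [this, Real.rpow_one]
    have h8 : 0 ≤ K ^ (1 - κ) := Real.rpow_nonneg hKpos.le _
    calc 24 * K ^ (1 - κ) * Real.log Q ^ e
        ≤ 24 * K ^ (1 - κ) * Real.log K ^ e := by gcongr
      _ = (24 * Real.log K ^ e) * K ^ (1 - κ) := by ring
      _ ≤ (c * K ^ κ) * K ^ (1 - κ) := mul_le_mul_of_nonneg_right h4 h8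
      _ = c * (K ^ κ * K ^ (1 - κ)) := by ring
      _ = c * K := by rw [h7]
  calc (T.ncard : ℝ) ≤ ∑ q ∈ I, ((PS x e c M d s q).card : ℝ) := hcard
    _ ≤ ∑ q ∈ I, (16 * c * K * (1 / ((q : ℝ) * Real.log q ^ (1 + e))) +
        24 * ((d : ℝ) * tq e c q *
          ∑ h ∈ Ico 1 ⌊1 / (2 * Pool.Agent.Helper87.MD.et c e d q)⌋₊,
            PM x M (s * (h * (q / Nat.gcd d q))))) := by
        refine Finset.sum_le_sum fun q hq => ?_
        have h2 := h1 m x e c M d s q he hc hd hs (hI2 q hq) hnd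
        rw [hcast] at h2
        refine h2.trans (le_of_eq ?_)
        rw [mul_one_div]
    _ = 16 * c * K * ∑ q ∈ I, 1 / ((q : ℝ) * Real.log q ^ (1 + e)) +
        24 * ∑ q ∈ I, (d : ℝ) * tq e c q *
          ∑ h ∈ Ico 1 ⌊1 / (2 * Pool.Agent.Helper87.MD.et c e d q)⌋₊,
            PM x M (s * (h * (q / Nat.gcd d q))) := by
        rw [Finset.sum_add_distrib, ← Finset.mul_sum, ← Finset.mul_sum]
    _ ≤ 16 * c * K * ((1 + 1 / e) / Real.log Q ^ e) + c * K / Real.log Q ^ e := by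
        refine add_le_add (mul_le_mul_of_nonneg_left hfirst (by positivity)) ?_
        exact (mul_le_mul_of_nonneg_left hsecond (by norm_num)).trans hsmall
    _ = (16 * (1 + 1 / e) + 1) * c * K / Real.log Q ^ e := by ring

end Pool.Agent.Helper20.LFU
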